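import Mathlib

/-!
# Survival number of hyperbolic vertex-transitive graphs

For an infinite, connected, locally finite, vertex-transitive, hyperbolic graph which does not
have linear growth, the survival number is infinite.
-/

namespace Pool.Agent.Results.MP_5fb5c8_co.HyperbolicSurvival

open SimpleGraph

universe u

variable {V : Type u}

/-- `G` is vertex-transitive: graph automorphisms act transitively on the vertices. -/
def VertexTransitive (G : SimpleGraph V) : Prop :=
  ∀ u v : V, ∃ φ : G ≃g G, φ u = v

/-- `G` is locally finite: every vertex has finitely many neighbours. -/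
def LocFinite (G : SimpleGraph V) : Prop :=
  ∀ v : V, (G.neighborSet v).Finite

/-- A walk is geodesic if its length is the graph distance between its endpoints. -/
def IsGeodesic {G : SimpleGraph V} {x y : V} (p : G.Walk x y) : Prop :=
  p.length = G.dist x y

/-- `G` is Gromov hyperbolic: for some `δ`, in every triangle of geodesic walks each vertex of a
side is at distance at most `δ` from a vertex of one of the other two sides. -/
def Hyperbolic (G : SimpleGraph V) : Prop :=
  ∃ δ : ℕ, ∀ (x y z : V) (p : G.Walk x y) (q : G.Walk y z) (r : G.Walk z x),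
    IsGeodesic p → IsGeodesic q → IsGeodesic r →
      ∀ w ∈ p.support, ∃ u, (u ∈ q.support ∨ u ∈ r.support) ∧ G.dist w u ≤ δ

/-- The ball `B(v,r) = {u : d(u,v) ≤ r}`. -/
def ball (G : SimpleGraph V) (v : V) (r : ℕ) : Set V :=
  {u | G.dist u v ≤ r}

/-- `G` has linear growth: `|B(v,r)|` is bounded by a linear function of `r`. -/
def LinearGrowth (G : SimpleGraph V) : Prop :=
  ∃ a b : ℝ, ∀ (v : V) (r : ℕ), ((ball G v r).ncard : ℝ) ≤ a * r + b

/-- The Voronoi cell `C(v,T)`. -/
def cell (G : SimpleGraph V) (v : V) (T : Finset V) : Set V :=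
  {u | ∀ v' ∈ T, G.dist u v ≤ G.dist u v'}

/-- The family `𝒯(D,n)` of finite vertex sets with at least `n` elements, at pairwise distance
greater than `D`. -/
def sites (G : SimpleGraph V) (D n : ℕ) : Set (Finset V) :=
  {T | n ≤ T.card ∧ ∀ v₁ ∈ T, ∀ v₂ ∈ T, v₁ ≠ v₂ → D < G.dist v₁ v₂}

/-- `I(T)`: the number of sites in `T` whose Voronoi cell is infinite. -/
noncomputable def infCells (G : SimpleGraph V) (T : Finset V) : ℕ :=
  {v : V | v ∈ T ∧ (cell G v T).Infinite}.ncard

/-- The survival number `s(G)`. -/
noncomputable def survivalNumber (G : SimpleGraph V) : ℕ∞ :=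
  sSup {m : ℕ∞ | ∃ n : ℕ, 1 ≤ n ∧ m = (n : ℕ∞) ∧ ∃ D : ℕ, ∀ T ∈ sites G D n, n ≤ infCells G T}

section basics

variable {G : SimpleGraph V}

lemma geod_between (hc : G.Connected) {x y w : V} {p : G.Walk x y} (hp : IsGeodesic p)
    (hw : w ∈ p.support) : G.dist x w + G.dist w y = G.dist x y := by
  classical
  have h1 : (p.takeUntil w hw).length + (p.dropUntil w hw).length = p.length := by
    rw [← Walk.length_append, Walk.take_spec]
  have h2 := SimpleGraph.dist_le (p.takeUntil w hw)
  have h3 := SimpleGraph.dist_le (p.dropUntil w hw)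
  have h4 : G.dist x y ≤ G.dist x w + G.dist w y := hc.dist_triangle
  unfold IsGeodesic at hp
  omega

lemma exists_geod (hc : G.Connected) (x y : V) : ∃ p : G.Walk x y, IsGeodesic p :=
  hc.exists_walk_length_eq_dist x y

lemma exists_geod_through (hc : G.Connected) {x y w : V}
    (h : G.dist x w + G.dist w y = G.dist x y) :
    ∃ p : G.Walk x y, IsGeodesic p ∧ w ∈ p.support := by
  obtain ⟨p, hp⟩ := exists_geod hc x w
  obtain ⟨q, hq⟩ := exists_geod hc w y
  refine ⟨p.append q, ?_, ?_⟩
  · unfold IsGeodesic at *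
    rw [Walk.length_append, hp, hq, h]
  · rw [Walk.mem_support_append_iff]
    left
    exact Walk.end_mem_support p

lemma geod_dist (hc : G.Connected) {x y a b : V} {p : G.Walk x y} (hp : IsGeodesic p)
    (ha : a ∈ p.support) (hb : b ∈ p.support) :
    G.dist a b + G.dist x a = G.dist x b ∨ G.dist a b + G.dist x b = G.dist x a := by
  classical
  have hsp : (p.takeUntil a ha).append (p.dropUntil a ha) = p := Walk.take_spec p ha
  have h1 : (p.takeUntil a ha).length + (p.dropUntil a ha).length = p.length := by
    rw [← Walk.length_append, Walk.take_spec]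
  have h2 := SimpleGraph.dist_le (p.takeUntil a ha)
  have h3 := SimpleGraph.dist_le (p.dropUntil a ha)
  have h4 : G.dist x y ≤ G.dist x a + G.dist a y := hc.dist_triangle
  have hp' : p.length = G.dist x y := hp
  have g1 : IsGeodesic (p.takeUntil a ha) := by
    unfold IsGeodesic; omega
  have g2 : IsGeodesic (p.dropUntil a ha) := by
    unfold IsGeodesic; omega
  have hb' : b ∈ ((p.takeUntil a ha).append (p.dropUntil a ha)).support := by rw [hsp]; exact hb
  rw [Walk.mem_support_append_iff] at hb'
  have e1 := geod_between hc hp ha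
  have e2 := geod_between hc hp hb
  have hcomm : G.dist a b = G.dist b a := SimpleGraph.dist_comm
  rcases hb' with hb' | hb'
  · have := geod_between hc g1 hb'
    right; omega
  · have := geod_between hc g2 hb'
    left; omega

/-- On a geodesic from `x` there is a vertex at every distance up to the length. -/
lemma exists_between (hc : G.Connected) {x y : V} {k : ℕ} (hk : k ≤ G.dist x y) :
    ∃ w, G.dist x w = k ∧ G.dist x w + G.dist w y = G.dist x y := by
  obtain ⟨p, hp⟩ := exists_geod hc x y
  refine ⟨p.getVert k, ?_⟩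
  have hm : p.getVert k ∈ p.support := Walk.getVert_mem_support p k
  have h1 := geod_between hc hp hm
  have hp' : p.length = G.dist x y := hp
  have h2 : G.dist x (p.getVert k) ≤ k := by
    have := SimpleGraph.dist_le (p.take k)
    rw [Walk.take_length] at this
    omega
  have h3 : G.dist (p.getVert k) y ≤ p.length - k := by
    have := SimpleGraph.dist_le (p.drop k)
    rw [Walk.drop_length] at this
    omega
  omega

lemma ball_finite (hc : G.Connected) (hlf : LocFinite G) (v : V) (r : ℕ) :
    (ball G v r).Finite := by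
  induction r with
  | zero =>
    refine (Set.finite_singleton v).subset ?_
    intro u hu
    have hu' : G.dist u v ≤ 0 := hu
    have : G.dist u v = 0 := by omega
    exact (hc.dist_eq_zero_iff).1 this
  | succ r ih =>
    have hfin : (ball G v r ∪ ⋃ w ∈ ball G v r, G.neighborSet w).Finite :=
      ih.union (ih.biUnion fun w _ => hlf w)
    refine hfin.subset ?_
    intro u hu
    have hu' : G.dist u v ≤ r + 1 := hu
    by_cases h : G.dist u v ≤ r
    · exact Or.inl h
    · right
      have he : G.dist v u = r + 1 := by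
        rw [SimpleGraph.dist_comm]; omega
      obtain ⟨w, hw1, hw2⟩ := exists_between hc (x := v) (y := u) (k := r) (by omega)
      have hwu : G.dist w u = 1 := by omega
      have hadj : G.Adj w u := SimpleGraph.dist_eq_one_iff_adj.1 hwu
      refine Set.mem_biUnion (x := w) ?_ hadj
      change G.dist w v ≤ r
      rw [SimpleGraph.dist_comm]; omega

lemma iso_dist_le (hc : G.Connected) (φ : G ≃g G) (x y : V) :
    G.dist (φ x) (φ y) ≤ G.dist x y := by
  obtain ⟨p, hp⟩ := exists_geod hc x y
  have h := SimpleGraph.dist_le (p.map φ.toHom)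
  rw [Walk.length_map] at h
  have hp' : p.length = G.dist x y := hp
  rw [hp'] at h
  exact h

lemma iso_dist (hc : G.Connected) (φ : G ≃g G) (x y : V) :
    G.dist (φ x) (φ y) = G.dist x y := by
  apply le_antisymm (iso_dist_le hc φ x y)
  have h := iso_dist_le hc φ.symm (φ x) (φ y)
  simpa using h

/-- The shadow of `p` seen from `w`. -/
def shadow (G : SimpleGraph V) (w p : V) : Set V :=
  {x | G.dist w p + G.dist p x = G.dist w x}

/-- Arbitrarily long geodesics with a prescribed midpoint. -/
lemma exists_mid [Infinite V] (hc : G.Connected) (hlf : LocFinite G) (ht : VertexTransitive G)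
    (v : V) (k : ℕ) :
    ∃ a b, G.dist a v = k ∧ G.dist v b = k ∧ G.dist a b = 2 * k := by
  obtain ⟨y, hy⟩ : ∃ y, y ∉ ball G v (2 * k) := by
    by_contra hcon
    push Not at hcon
    exact Set.infinite_univ ((ball_finite hc hlf v (2 * k)).subset (fun y _ => hcon y))
  have hy' : 2 * k ≤ G.dist v y := by
    have : ¬ G.dist y v ≤ 2 * k := hy
    rw [SimpleGraph.dist_comm]; omega
  obtain ⟨z, hz1, hz2⟩ := exists_between hc hy'
  obtain ⟨m, hm1, hm2⟩ := exists_between hc (x := v) (y := z) (k := k) (by omega)
  obtain ⟨φ, hφ⟩ := ht m v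
  have e1 := iso_dist hc φ v m
  have e2 := iso_dist hc φ m z
  rw [hφ] at e1 e2
  refine ⟨φ v, φ z, ?_, ?_, ?_⟩
  · rw [e1]; exact hm1
  · rw [e2]; omega
  · rw [iso_dist hc]; exact hz1

/-- Every vertex is `δ`-close to a vertex having an infinite shadow seen from `o`. -/
lemma close_to_shadow [Infinite V] (hc : G.Connected) (hlf : LocFinite G)
    (ht : VertexTransitive G) {δ : ℕ}
    (hδ : ∀ (x y z : V) (p : G.Walk x y) (q : G.Walk y z) (r : G.Walk z x),
      IsGeodesic p → IsGeodesic q → IsGeodesic r →
      ∀ w ∈ p.support, ∃ u, (u ∈ q.support ∨ u ∈ r.support) ∧ G.dist w u ≤ δ)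
    (o v : V) : ∃ q, G.dist v q ≤ δ ∧ (shadow G o q).Infinite := by
  have key : ∀ k : ℕ, ∃ c q, G.dist v c = k ∧ G.dist v q ≤ δ ∧ c ∈ shadow G o q := by
    intro k
    obtain ⟨a, b, ha, hb, hab⟩ := exists_mid hc hlf ht v k
    obtain ⟨p, hp, hvp⟩ := exists_geod_through hc (x := a) (y := b) (w := v) (by omega)
    obtain ⟨q, hq⟩ := exists_geod hc b o
    obtain ⟨r, hr⟩ := exists_geod hc o a
    obtain ⟨u, hu, hvu⟩ := hδ a b o p q r hp hq hr v hvp
    rcases hu with hu | hu
    · refine ⟨b, u, hb, hvu, ?_⟩
      have := geod_between hc hq hu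
      change G.dist o u + G.dist u b = G.dist o b
      rw [SimpleGraph.dist_comm (u := o) (v := u), SimpleGraph.dist_comm (u := u) (v := b),
        SimpleGraph.dist_comm (u := o) (v := b)]
      omega
    · refine ⟨a, u, ?_, hvu, ?_⟩
      · rw [SimpleGraph.dist_comm]; exact ha
      · exact geod_between hc hr hu
  choose c q hc1 hq1 hcq using key
  have hfin : Finite (ball G v δ) := (ball_finite hc hlf v δ)
  let f : ℕ → ball G v δ := fun k => ⟨q k, by
    change G.dist (q k) v ≤ δ
    rw [SimpleGraph.dist_comm]; exact hq1 k⟩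
  obtain ⟨⟨q₀, hq₀⟩, hinf⟩ := Finite.exists_infinite_fiber f
  refine ⟨q₀, ?_, ?_⟩
  · have : G.dist q₀ v ≤ δ := hq₀
    rw [SimpleGraph.dist_comm]; exact this
  · have hinf' : (f ⁻¹' {⟨q₀, hq₀⟩}).Infinite := Set.infinite_coe_iff.1 hinf
    have hinj : Set.InjOn c (f ⁻¹' {⟨q₀, hq₀⟩}) := by
      intro i _ j _ hij
      rw [← hc1 i, ← hc1 j, hij]
    refine (hinf'.image hinj).mono ?_
    rintro x ⟨k, hk, rfl⟩
    have : q k = q₀ := by
      have h : f k = ⟨q₀, hq₀⟩ := hk
      exact congrArg Subtype.val h
    rw [← this]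
    exact hcq k

lemma ball_ncard (hc : G.Connected) (ht : VertexTransitive G) (v w : V) (r : ℕ) :
    (ball G v r).ncard = (ball G w r).ncard := by
  obtain ⟨φ, hφ⟩ := ht v w
  have : ball G w r = φ '' ball G v r := by
    ext x
    constructor
    · intro hx
      refine ⟨φ.symm x, ?_, by simp⟩
      have hx' : G.dist x w ≤ r := hx
      change G.dist (φ.symm x) v ≤ r
      rw [← iso_dist hc φ, hφ]
      simpa using hx'
    · rintro ⟨y, hy, rfl⟩
      have hy' : G.dist y v ≤ r := hy
      change G.dist (φ y) w ≤ r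
      rw [← hφ, iso_dist hc]
      exact hy'
  rw [this, Set.ncard_image_of_injective _ φ.injective]

/-- If the growth is not linear, there are, on some sphere around `o`, `n` vertices with infinite
shadow at pairwise distance greater than `4δ`. -/
lemma exists_many [Infinite V] (hc : G.Connected) (hlf : LocFinite G)
    (ht : VertexTransitive G) {δ : ℕ}
    (hδ : ∀ (x y z : V) (p : G.Walk x y) (q : G.Walk y z) (r : G.Walk z x),
      IsGeodesic p → IsGeodesic q → IsGeodesic r →
      ∀ w ∈ p.support, ∃ u, (u ∈ q.support ∨ u ∈ r.support) ∧ G.dist w u ≤ δ)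
    (hgrow : ¬ LinearGrowth G) (o : V) (n : ℕ) :
    ∃ (t : ℕ) (P : Finset V), P.card = n ∧
      (∀ p ∈ P, G.dist o p = t ∧ (shadow G o p).Infinite) ∧
      ∀ p ∈ P, ∀ q ∈ P, p ≠ q → 4 * δ < G.dist p q := by
  classical
  by_contra hcon
  push Not at hcon
  apply hgrow
  -- for each `t` there is a small set `P` covering the vertices with infinite shadow
  have cover : ∀ t : ℕ, ∃ P : Finset V, P.card ≤ n ∧
      ∀ q, G.dist o q = t → (shadow G o q).Infinite → ∃ p ∈ P, G.dist q p ≤ 4 * δ := by
    intro t
    have step : ∀ m : ℕ, m ≤ n → (∃ P : Finset V, P.card ≤ n ∧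
        ∀ q, G.dist o q = t → (shadow G o q).Infinite → ∃ p ∈ P, G.dist q p ≤ 4 * δ) ∨
        (∃ P : Finset V, P.card = m ∧
          (∀ p ∈ P, G.dist o p = t ∧ (shadow G o p).Infinite) ∧
          ∀ p ∈ P, ∀ q ∈ P, p ≠ q → 4 * δ < G.dist p q) := by
      intro m
      induction m with
      | zero =>
        intro _
        right
        exact ⟨∅, by simp, by simp, by simp⟩
      | succ m ih =>
        intro hm
        rcases ih (by omega) with h | ⟨P, hP1, hP2, hP3⟩
        · exact Or.inl h
        · by_cases hcov : ∀ q, G.dist o q = t → (shadow G o q).Infinite →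
              ∃ p ∈ P, G.dist q p ≤ 4 * δ
          · left
            exact ⟨P, by omega, hcov⟩
          · right
            push Not at hcov
            obtain ⟨q, hq1, hq2, hq3⟩ := hcov
            have hqP : q ∉ P := by
              intro hq
              have := hq3 q hq
              rw [SimpleGraph.dist_self] at this
              omega
            refine ⟨insert q P, ?_, ?_, ?_⟩
            · rw [Finset.card_insert_of_notMem hqP, hP1]
            · intro p hp
              rw [Finset.mem_insert] at hp
              rcases hp with rfl | hp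
              · exact ⟨hq1, hq2⟩
              · exact hP2 p hp
            · intro p hp p' hp' hne
              rw [Finset.mem_insert] at hp hp'
              rcases hp with rfl | hp
              · rcases hp' with rfl | hp'
                · exact absurd rfl hne
                · exact hq3 p' hp'
              · rcases hp' with rfl | hp'
                · rw [SimpleGraph.dist_comm]; exact hq3 p hp
                · exact hP3 p hp p' hp' hne
    rcases step n le_rfl with h | ⟨P, hP1, hP2, hP3⟩
    · exact h
    · obtain ⟨p, hp, q, hq, hne, hle⟩ := hcon t P hP1 hP2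
      exact absurd (hP3 p hp q hq hne) (by omega)
  choose P hP1 hP2 using cover
  refine ⟨(n * (ball G o (5 * δ)).ncard : ℕ), (n * (ball G o (5 * δ)).ncard * (δ + 1) : ℕ), ?_⟩
  intro v r
  rw [ball_ncard hc ht v o r]
  have hsub : ball G o r ⊆ ⋃ t ∈ Finset.range (r + δ + 1), ⋃ p ∈ P t, ball G p (5 * δ) := by
    intro x hx
    have hx' : G.dist x o ≤ r := hx
    obtain ⟨q, hq1, hq2⟩ := close_to_shadow hc hlf ht hδ o x
    obtain ⟨p, hp1, hp2⟩ := hP2 (G.dist o q) q rfl hq2
    have h1 : G.dist o q ≤ G.dist o x + G.dist x q := hc.dist_triangle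
    have h2 : G.dist x p ≤ G.dist x q + G.dist q p := hc.dist_triangle
    have h3 : G.dist o x = G.dist x o := SimpleGraph.dist_comm
    simp only [Set.mem_iUnion]
    refine ⟨G.dist o q, ?_, p, hp1, ?_⟩
    · rw [Finset.mem_range]; omega
    · change G.dist x p ≤ 5 * δ
      omega
  have hfinU : (⋃ t ∈ Finset.range (r + δ + 1), ⋃ p ∈ P t, ball G p (5 * δ)).Finite := by
    refine Set.Finite.biUnion (Finset.finite_toSet _) ?_
    intro t _
    refine Set.Finite.biUnion (Finset.finite_toSet _) ?_
    intro p _
    exact ball_finite hc hlf p _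
  have h1 : (ball G o r).ncard ≤ (r + δ + 1) * (n * (ball G o (5 * δ)).ncard) := by
    refine (Set.ncard_le_ncard hsub hfinU).trans ?_
    refine (Finset.set_ncard_biUnion_le _ _).trans ?_
    refine (Finset.sum_le_card_nsmul _ _ (n * (ball G o (5 * δ)).ncard) ?_).trans ?_
    · intro t _
      refine (Finset.set_ncard_biUnion_le _ _).trans ?_
      refine (Finset.sum_le_card_nsmul _ _ ((ball G o (5 * δ)).ncard) ?_).trans ?_
      · intro p _
        rw [ball_ncard hc ht p o]
      · rw [smul_eq_mul]
        exact Nat.mul_le_mul_right _ (hP1 t)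
    · rw [Finset.card_range, smul_eq_mul]
  have h2 : (((ball G o r).ncard : ℕ) : ℝ) ≤
      (((r + δ + 1) * (n * (ball G o (5 * δ)).ncard) : ℕ) : ℝ) := by exact_mod_cast h1
  refine h2.trans (le_of_eq ?_)
  push_cast
  ring

/-- The key lemma: two directions `p`, `p'` at distance `t` from `w` which lead to the same site
`u` far away from `w` are `4δ`-close. -/
lemma key_close (hc : G.Connected) {δ : ℕ}
    (hδ : ∀ (x y z : V) (p : G.Walk x y) (q : G.Walk y z) (r : G.Walk z x),
      IsGeodesic p → IsGeodesic q → IsGeodesic r →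
      ∀ w ∈ p.support, ∃ u, (u ∈ q.support ∨ u ∈ r.support) ∧ G.dist w u ≤ δ)
    {w u : V} {t : ℕ} (hD : 2 * t + 2 * δ < G.dist w u)
    {p p' x x' : V} (hp : G.dist w p = t) (hp' : G.dist w p' = t)
    (hx : x ∈ shadow G w p) (hx' : x' ∈ shadow G w p')
    (hxu : G.dist x u ≤ G.dist x w) (hxu' : G.dist x' u ≤ G.dist x' w) :
    G.dist p p' ≤ 4 * δ := by
  obtain ⟨r, hr⟩ := exists_geod hc u w
  have aux : ∀ p x : V, G.dist w p = t → x ∈ shadow G w p → G.dist x u ≤ G.dist x w →
      ∃ q ∈ r.support, G.dist p q ≤ δ := by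
    intro p x hp hx hxu
    have hx1 : G.dist w p + G.dist p x = G.dist w x := hx
    obtain ⟨a, ha, hpa⟩ := exists_geod_through hc hx1
    obtain ⟨b, hb⟩ := exists_geod hc x u
    obtain ⟨q, hq, hpq⟩ := hδ w x u a b r ha hb hr p hpa
    rcases hq with hq | hq
    · exfalso
      have e1 := geod_between hc hb hq
      have e2 : G.dist w u ≤ G.dist w q + G.dist q u := hc.dist_triangle
      have e3 : G.dist w q ≤ G.dist w p + G.dist p q := hc.dist_triangle
      have e4 : G.dist x p ≤ G.dist x q + G.dist q p := hc.dist_triangle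
      have e5 : G.dist x p = G.dist p x := SimpleGraph.dist_comm
      have e6 : G.dist q p = G.dist p q := SimpleGraph.dist_comm
      have e7 : G.dist x w = G.dist w x := SimpleGraph.dist_comm
      omega
    · exact ⟨q, hq, hpq⟩
  obtain ⟨q, hq, hpq⟩ := aux p x hp hx hxu
  obtain ⟨q', hq', hpq'⟩ := aux p' x' hp' hx' hxu'
  have e1 := geod_dist hc hr hq hq'
  have e2 := geod_between hc hr hq
  have e3 := geod_between hc hr hq'
  have e4 : G.dist w q ≤ G.dist w p + G.dist p q := hc.dist_triangle
  have e5 : G.dist w p ≤ G.dist w q + G.dist q p := hc.dist_triangle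
  have e6 : G.dist w q' ≤ G.dist w p' + G.dist p' q' := hc.dist_triangle
  have e7 : G.dist w p' ≤ G.dist w q' + G.dist q' p' := hc.dist_triangle
  have e8 : G.dist p p' ≤ G.dist p q + G.dist q p' := hc.dist_triangle
  have e9 : G.dist q p' ≤ G.dist q q' + G.dist q' p' := hc.dist_triangle
  have c1 : G.dist q p = G.dist p q := SimpleGraph.dist_comm
  have c2 : G.dist q' p' = G.dist p' q' := SimpleGraph.dist_comm
  have c3 : G.dist q w = G.dist w q := SimpleGraph.dist_comm
  have c4 : G.dist q' w = G.dist w q' := SimpleGraph.dist_comm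
  omega

/-- For a nonempty finite set of sites, an infinite set of vertices meets the cell of some site
in an infinite set. -/
lemma exists_inf_cell (T : Finset V) (hT : T.Nonempty) {S : Set V} (hS : S.Infinite) :
    ∃ u ∈ T, (S ∩ cell G u T).Infinite := by
  have hnear : ∀ x : V, ∃ u ∈ T, x ∈ cell G u T := by
    intro x
    obtain ⟨u, hu, hmin⟩ := Finset.exists_min_image T (fun v => G.dist x v) hT
    exact ⟨u, hu, fun v' hv' => hmin v' hv'⟩
  by_contra hcon
  push Not at hcon
  apply hS
  have hfin : (⋃ u ∈ T, S ∩ cell G u T).Finite :=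
    Set.Finite.biUnion (Finset.finite_toSet _) (fun u hu => by
      exact (hcon u hu))
  refine hfin.subset ?_
  intro x hx
  obtain ⟨u, hu, hxu⟩ := hnear x
  exact Set.mem_biUnion hu ⟨hx, hxu⟩

/-- For every `n` there is `D` such that all sets of at least `n` sites at pairwise distance more
than `D` have at least `n` infinite cells. -/
lemma main [Infinite V] (hc : G.Connected) (hlf : LocFinite G)
    (ht : VertexTransitive G) (hhyp : Hyperbolic G) (hgrow : ¬ LinearGrowth G) (n : ℕ)
    (hn : 1 ≤ n) : ∃ D : ℕ, ∀ T ∈ sites G D n, n ≤ infCells G T := by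
  classical
  obtain ⟨δ, hδ⟩ := hhyp
  obtain ⟨o⟩ : Nonempty V := inferInstance
  obtain ⟨t, P, hP1, hP2, hP3⟩ := exists_many hc hlf ht hδ hgrow o n
  refine ⟨2 * t + 2 * δ, ?_⟩
  rintro T ⟨hT1, hT2⟩
  have hTne : T.Nonempty := by
    rw [← Finset.card_pos]; omega
  have hsetfin : {v : V | v ∈ T ∧ (cell G v T).Infinite}.Finite :=
    T.finite_toSet.subset (fun v hv => hv.1)
  by_cases hall : ∀ v ∈ T, (cell G v T).Infinite
  · have : {v : V | v ∈ T ∧ (cell G v T).Infinite} = (T : Set V) := by
      ext v
      exact ⟨fun h => h.1, fun h => ⟨h, hall v h⟩⟩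
    unfold infCells
    rw [this, Set.ncard_coe_finset]
    exact hT1
  · push Not at hall
    obtain ⟨w, hwT, hwfin⟩ := hall
    obtain ⟨φ, hφ⟩ := ht o w
    have hsh : ∀ p ∈ P, (shadow G w (φ p)).Infinite := by
      intro p hp
      have h1 : shadow G w (φ p) = φ '' shadow G o p := by
        ext x
        constructor
        · intro hx
          refine ⟨φ.symm x, ?_, by simp⟩
          have hx' : G.dist w (φ p) + G.dist (φ p) x = G.dist w x := hx
          have hxx : x = φ (φ.symm x) := by simp
          rw [← hφ, hxx, iso_dist hc, iso_dist hc, iso_dist hc] at hx'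
          exact hx'
        · rintro ⟨y, hy, rfl⟩
          have hy' : G.dist o p + G.dist p y = G.dist o y := hy
          change G.dist w (φ p) + G.dist (φ p) (φ y) = G.dist w (φ y)
          rw [← hφ, iso_dist hc, iso_dist hc, iso_dist hc]
          exact hy'
      rw [h1]
      exact (hP2 p hp).2.image φ.injective.injOn
    have hex : ∀ p : V, p ∈ P → ∃ u ∈ T, (shadow G w (φ p) ∩ cell G u T).Infinite :=
      fun p hp => exists_inf_cell T hTne (hsh p hp)
    choose! u hu1 hu2 using hex
    have hmaps : ∀ p ∈ P, u p ∈ {v : V | v ∈ T ∧ (cell G v T).Infinite} := by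
      intro p hp
      exact ⟨hu1 p hp, (hu2 p hp).mono Set.inter_subset_right⟩
    have hinj : Set.InjOn u (P : Set V) := by
      intro p hp p' hp' huu
      by_contra hne
      have hlt := hP3 p hp p' hp' hne
      have hwu : w ≠ u p := by
        intro heq
        have := (hmaps p hp).2
        rw [← heq] at this
        exact this hwfin
      have hD := hT2 w hwT (u p) (hu1 p hp) hwu
      obtain ⟨x, hx1, hx2⟩ := (hu2 p hp).nonempty
      obtain ⟨x', hx1', hx2'⟩ := (hu2 p' hp').nonempty
      rw [← huu] at hx2'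
      have hd1 : G.dist w (φ p) = t := by
        rw [← hφ, iso_dist hc]; exact (hP2 p hp).1
      have hd2 : G.dist w (φ p') = t := by
        rw [← hφ, iso_dist hc]; exact (hP2 p' hp').1
      have hclose := key_close hc hδ hD hd1 hd2 hx1 hx1' (hx2 w hwT) (hx2' w hwT)
      rw [iso_dist hc] at hclose
      omega
    have hcard : (P : Set V).ncard ≤ {v : V | v ∈ T ∧ (cell G v T).Infinite}.ncard :=
      Set.ncard_le_ncard_of_injOn u hmaps hinj hsetfin
    rw [Set.ncard_coe_finset, hP1] at hcard
    exact hcard

end basics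

/-- The survival number of an infinite, connected, locally finite, vertex-transitive, hyperbolic
graph which does not have linear growth is infinite. -/
theorem result {V : Type u} [Infinite V] (G : SimpleGraph V) (hconn : G.Connected)
    (hlf : LocFinite G) (htrans : VertexTransitive G) (hhyp : Hyperbolic G)
    (hgrowth : ¬ LinearGrowth G) : survivalNumber G = ⊤ := by
  unfold survivalNumber
  rw [sSup_eq_top]
  intro b hb
  obtain ⟨m, rfl⟩ : ∃ m : ℕ, b = (m : ℕ∞) := by
    exact ⟨b.toNat, (ENat.natCast_toNat hb.ne).symm⟩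
  refine ⟨((m + 1 : ℕ) : ℕ∞), ⟨m + 1, by omega, rfl, ?_⟩, ?_⟩
  · exact main hconn hlf htrans hhyp hgrowth (m + 1) (by omega)
  · exact_mod_cast Nat.lt_succ_self m

end Pool.Agent.Results.MP_5fb5c8_co.HyperbolicSurvival
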